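import Mathlib
import Pool.Agent.Helper28.Ball.Mono
import Pool.Agent.Helper28.Ball.Polar
import Pool.Agent.Helper69.DC.Defs
import Pool.Agent.Helper69.DC.Goals

/-!
Packet DC-LD: density of the real points.
-/

namespace Pool.Agent.Helper5.DC

open MvPolynomial Finset ComplexConjugate Pool.Agent.Helper69.DC

lemma eval_bind' {σ τ : Type*} (sub : σ → MvPolynomial τ ℂ) (F : MvPolynomial σ ℂ) (v : τ → ℂ) :
    eval v (aeval sub F) = eval (fun s => eval v (sub s)) F := by
  induction F using MvPolynomial.induction_on with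
  | C a => simp
  | add p q hp hq => simp only [map_add, hp, hq]
  | mul_X p i hp => simp only [map_mul, hp, aeval_X, eval_X]

/-- the substitution -/
noncomputable def sb (m : ℕ) (κ : Type) :
    V3 m ⊕ (κ ⊕ κ) → MvPolynomial (((Fin m ⊕ Unit) ⊕ κ) ⊕ ((Fin m ⊕ Unit) ⊕ κ)) ℂ :=
  Sum.elim
    (Sum.elim (fun i => X (Sum.inl (Sum.inl (Sum.inl i))))
      (Sum.elim (fun i => X (Sum.inr (Sum.inl (Sum.inl i))))
        (fun _ => C (1 / 2) * (∑ i, X (Sum.inl (Sum.inl (Sum.inl i))) *
            X (Sum.inr (Sum.inl (Sum.inl i))) - X (Sum.inl (Sum.inl (Sum.inr ()))) +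
            X (Sum.inr (Sum.inl (Sum.inr ())))))))
    (Sum.elim (fun k => X (Sum.inl (Sum.inr k))) (fun k => X (Sum.inr (Sum.inr k))))

/-- value of the substitution at a point -/
lemma eval_sb (m : ℕ) (κ : Type) (z z' : (Fin m ⊕ Unit) ⊕ κ → ℂ) :
    (fun s => eval (Sum.elim z z') (sb m κ s)) =
      Sum.elim (pt (fun i => z (Sum.inl (Sum.inl i))) (fun i => z' (Sum.inl (Sum.inl i)))
        (1 / 2 * (∑ i, z (Sum.inl (Sum.inl i)) * z' (Sum.inl (Sum.inl i)) -
          z (Sum.inl (Sum.inr ())) + z' (Sum.inl (Sum.inr ())))))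
        (Sum.elim (fun k => z (Sum.inr k)) (fun k => z' (Sum.inr k))) := by
  funext s
  rcases s with (i | i | i) | (k | k)
  · simp [sb, pt]
  · simp [sb, pt]
  · simp [sb, pt]
  · simp [sb]
  · simp [sb]

theorem g_ld : G_LD := by
  intro m κ P h
  have h0 : ∀ z : (Fin m ⊕ Unit) ⊕ κ → ℂ,
      eval (Sum.elim z (fun i => conj (z i))) (aeval (sb m κ) P) = 0 := by
    intro z
    rw [eval_bind', eval_sb]
    apply h
    simp only [map_mul, map_add, map_sub, map_sum, Complex.conj_conj, map_div₀, map_one, map_ofNat]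
    have h1 : ∑ i : Fin m, conj (z (Sum.inl (Sum.inl i))) * z (Sum.inl (Sum.inl i)) =
        ∑ i : Fin m, z (Sum.inl (Sum.inl i)) * conj (z (Sum.inl (Sum.inl i))) :=
      Finset.sum_congr rfl fun i _ => mul_comm _ _
    rw [h1]
    ring
  have h1 := Pool.Agent.Helper28.Ball.eq_zero_of_conj (aeval (sb m κ) P) h0
  apply MvPolynomial.funext
  intro w
  rw [map_zero]
  have h2 := h1 (Sum.elim
    (Sum.elim (Sum.elim (fun i => w (Sum.inl (Sum.inl i))) (fun _ => 0)) (fun k => w (Sum.inr (Sum.inl k))))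
    (Sum.elim (Sum.elim (fun i => w (Sum.inl (Sum.inr (Sum.inl i))))
      (fun _ => 2 * w (Sum.inl (Sum.inr (Sum.inr ()))) -
        ∑ i, w (Sum.inl (Sum.inl i)) * w (Sum.inl (Sum.inr (Sum.inl i)))))
      (fun k => w (Sum.inr (Sum.inr k)))))
  rw [eval_bind', eval_sb] at h2
  rw [← h2]
  congr 2
  funext s
  rcases s with (i | i | i) | (k | k)
  · simp [pt]
  · simp [pt]
  · simp only [Sum.elim_inl, pt, Sum.elim_inr]
    ring
  · simp
  · simp

theorem g_ld3 : G_LD3 := by
  intro m P h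
  have h1 : rename (Sum.inl : V3 m → V3 m ⊕ (Empty ⊕ Empty)) P = 0 := by
    apply g_ld m Empty
    intro β b w hb
    rw [eval_rename]
    exact h β b hb
  exact rename_injective _ Sum.inl_injective (by rw [h1, map_zero])

end Pool.Agent.Helper5.DC
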