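import Pool.Agent.Helper69.DC.Goals2
import Pool.Agent.Helper81.DC.DIV

/-!
# Project DC (MP_628424_an): packet WR
-/

set_option autoImplicit false

namespace Pool.Agent.Helper5.DC

open MvPolynomial Finset ComplexConjugate Pool.Agent.Helper69.DC

variable {m : ℕ} (τ₀ e : Fin m → ℂ)

/-- restriction to a line -/
noncomputable def ln : MvPolynomial (Fin m) ℂ →ₐ[ℂ] Polynomial ℂ :=
  aeval fun i => Polynomial.C (τ₀ i) + Polynomial.C (e i) * Polynomial.X

theorem eval_ln (t : ℂ) (b : MvPolynomial (Fin m) ℂ) :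
    Polynomial.eval t (ln τ₀ e b) = eval (fun i => τ₀ i + e i * t) b := by
  have h : (Polynomial.aeval t : Polynomial ℂ →ₐ[ℂ] ℂ).comp (ln τ₀ e) =
      aeval (fun i => τ₀ i + e i * t) := by
    apply MvPolynomial.algHom_ext
    intro i
    rw [AlgHom.comp_apply, ln, aeval_X, aeval_X]
    simp
  have h1 := DFunLike.congr_fun h b
  rw [AlgHom.comp_apply] at h1
  exact h1

theorem deriv_ln (b : MvPolynomial (Fin m) ℂ) :
    Polynomial.derivative (ln τ₀ e b) = ln τ₀ e (∑ j, C (e j) * pderiv j b) := by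
  induction b using MvPolynomial.induction_on with
  | C a =>
    have h1 : ln τ₀ e (C a) = Polynomial.C a := by
      rw [ln, ← algebraMap_eq, AlgHom.commutes]; rfl
    rw [h1]
    simp
  | add p q hp hq =>
    rw [map_add, map_add, hp, hq, ← map_add]
    congr 1
    rw [← Finset.sum_add_distrib]
    refine Finset.sum_congr rfl fun j _ => ?_
    rw [map_add, mul_add]
  | mul_X p i hp =>
    have h1 : ∑ j, C (e j) * pderiv j (p * X i) =
        (∑ j, C (e j) * pderiv j p) * X i + C (e i) * p := by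
      rw [Finset.sum_mul]
      have h2 : C (e i) * p = ∑ j, (if j = i then C (e j) * p else 0) := by
        rw [Finset.sum_ite_eq' Finset.univ i]
        simp
      rw [h2, ← Finset.sum_add_distrib]
      refine Finset.sum_congr rfl fun j _ => ?_
      rw [Derivation.leibniz, smul_eq_mul, smul_eq_mul]
      by_cases hj : j = i
      · subst hj
        rw [pderiv_X_self, if_pos rfl]
        ring
      · rw [pderiv_X_of_ne (Ne.symm hj), if_neg hj]
        ring
    have h3 : ln τ₀ e (X i) = Polynomial.C (τ₀ i) + Polynomial.C (e i) * Polynomial.X := by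
      rw [ln, aeval_X]
    have h4 : ln τ₀ e (C (e i)) = Polynomial.C (e i) := by
      rw [ln, ← algebraMap_eq, AlgHom.commutes]; rfl
    rw [map_mul, Polynomial.derivative_mul, hp, h1, map_add, map_mul, map_mul, h3, h4]
    simp
    ring

/-- functions of one variable with vanishing Wronskian -/
theorem wronskian {p s : Polynomial ℂ} (h : p * Polynomial.derivative s =
    s * Polynomial.derivative p) (hp : p.eval 0 ≠ 0) (hs : s.eval 0 = 0) : s = 0 := by
  by_contra h0
  have hp0 : p ≠ 0 := by
    rintro rfl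
    simp at hp
  have hroot : s.IsRoot 0 := hs
  have hm := Polynomial.derivative_rootMultiplicity_of_root hroot
  have hk : 0 < s.rootMultiplicity 0 := (Polynomial.rootMultiplicity_pos h0).2 hroot
  have hs' : Polynomial.derivative s ≠ 0 := by
    intro h1
    have h2 := Polynomial.derivative_eq_zero.1 h1
    rw [Polynomial.eq_C_of_natDegree_eq_zero h2] at hs h0
    rw [Polynomial.eval_C] at hs
    rw [hs] at h0
    simp at h0
  have h3 : p * Polynomial.derivative s ≠ 0 := mul_ne_zero hp0 hs'
  have h4 : s * Polynomial.derivative p ≠ 0 := h ▸ h3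
  have h5 := Polynomial.rootMultiplicity_mul (x := 0) h3
  have h6 := Polynomial.rootMultiplicity_mul (x := 0) h4
  rw [← h, h5, hm, Polynomial.rootMultiplicity_eq_zero hp] at h6
  omega

theorem h_wr : H_WR := by
  intro m β v b₁ b₂ hv hn hW
  obtain ⟨i, hi⟩ := Function.ne_iff.1 hv
  have hi' : v i ≠ 0 := hi
  obtain ⟨τ₀, hτ₀, hb⟩ : ∃ η : Fin m → ℂ, ∑ i, (η i - β i) * conj (v i) = 0 ∧
      eval η b₁ ≠ 0 := by
    by_contra hcon
    push Not at hcon
    exact hn (Pool.Agent.Helper81.DC.dvd_of_vanish β v i hi' b₁ hcon)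
  refine ⟨eval τ₀ b₂ / eval τ₀ b₁, Pool.Agent.Helper81.DC.dvd_of_vanish β v i hi' _ ?_⟩
  intro τ hτ
  set c := eval τ₀ b₂ / eval τ₀ b₁ with hc
  set e : Fin m → ℂ := fun i => τ i - τ₀ i with he
  have he0 : ∑ i, e i * conj (v i) = 0 := by
    have h1 : ∀ i, e i * conj (v i) = (τ i - β i) * conj (v i) - (τ₀ i - β i) * conj (v i) := by
      intro i
      rw [he]
      ring
    rw [Finset.sum_congr rfl fun i _ => h1 i, Finset.sum_sub_distrib, hτ, hτ₀, sub_zero]
  have hX : ln τ₀ e (xp β v) = 0 := by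
    apply Polynomial.funext
    intro t
    rw [eval_ln, Pool.Agent.Helper81.DC.eval_xp, Polynomial.eval_zero]
    have h1 : ∀ i, (τ₀ i + e i * t - β i) * conj (v i) =
        (τ₀ i - β i) * conj (v i) + t * (e i * conj (v i)) := fun i => by ring
    rw [Finset.sum_congr rfl fun i _ => h1 i, Finset.sum_add_distrib, ← Finset.mul_sum, hτ₀, he0,
      mul_zero, add_zero]
  obtain ⟨r, hr⟩ := hW e he0
  have h2 := congrArg (ln τ₀ e) hr
  rw [map_mul, hX, zero_mul, map_sub, map_mul, map_mul, ← deriv_ln, ← deriv_ln] at h2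
  set p₁ := ln τ₀ e b₁ with hp₁
  set p₂ := ln τ₀ e b₂ with hp₂
  have h3 : p₁ * Polynomial.derivative (p₂ - Polynomial.C c * p₁) =
      (p₂ - Polynomial.C c * p₁) * Polynomial.derivative p₁ := by
    rw [Polynomial.derivative_sub, Polynomial.derivative_C_mul]
    linear_combination h2
  have hz : ∀ b, Polynomial.eval 0 (ln τ₀ e b) = eval τ₀ b := by
    intro b
    rw [eval_ln]
    simp
  have hone : ∀ b, Polynomial.eval 1 (ln τ₀ e b) = eval τ b := by
    intro b
    rw [eval_ln]
    congr 1
    simp [he]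
  have h4 := wronskian h3 (by rw [hp₁, hz]; exact hb) (by
    rw [Polynomial.eval_sub, Polynomial.eval_mul, Polynomial.eval_C, hp₁, hp₂, hz, hz, hc,
      div_mul_cancel₀ _ hb, sub_self])
  have h5 := congrArg (Polynomial.eval 1) h4
  rw [Polynomial.eval_sub, Polynomial.eval_mul, Polynomial.eval_C, hp₁, hp₂, hone, hone,
    Polynomial.eval_zero] at h5
  rw [map_sub, map_mul, eval_C]
  exact h5

end Pool.Agent.Helper5.DC
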